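import Pool.Agent.H22.MX8

namespace Pool.Agent.Results.MP_8006ab_lc.Complete

open Pool.Agent.H38.NP Pool.Agent.H36.PSpace Pool.Agent.H22.MX

/-- For every fixed `k ≥ 4`, `k`-COLOUR-MIXING is PSPACE-complete. -/
theorem result (k : ℕ) (hk : 4 ≤ k) :
    InPSPACE (lang (ColourMixing k)) ∧ PSPACEHard (lang (ColourMixing k)) :=
  ⟨mix_mem k, (mix_psh hk).hard fun _ _ => Iff.rfl⟩

end Pool.Agent.Results.MP_8006ab_lc.Complete
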